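import Mathlib
import Pool.Agent.Helper88.AC.Main

/-!
# The frequency of chains of large gaps between consecutive primes

Problem MP_69be96_nt, for the actual primes and without any hypothesis.  Write `p n` for the
`n`-th prime (`Nat.nth Nat.Prime n`, counted from `0`) and `g n = p (n + 1) - p n - 1` for the
number of composites between `p n` and the next prime.

There are `c > 0` and `C` such that for every `k ≥ 1`, all real `x ≥ X(k)` and all `L` with
`log log log x ≤ L ≤ (c / k^2) log log x`, at least `x exp (-exp (C k^2 L))` of the `n` with
`p (n + k) ≤ x` satisfy `g (n + i) ≥ L log x` for `i = 0, .., k-1`.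

A window consists of about `k^2` short blocks, where primes are allowed, and long intervals between
them.  A sieve weight kills the primes of the intervals and does not lose the primes of the blocks;
for a positive proportion of the residue classes modulo the product of the primes up to
`(log x) / 20` this gives windows with more than `k` isolated primes, and the weight is bounded.
-/

namespace Pool.Agent.Helper88.Old.AbundantChains

theorem result : ∃ c C : ℝ, 0 < c ∧ ∀ k : ℕ, 1 ≤ k → ∃ X : ℝ, ∀ x : ℝ, X ≤ x → ∀ L : ℝ,
    Real.log (Real.log (Real.log x)) ≤ L → L ≤ c / (k : ℝ) ^ 2 * Real.log (Real.log x) →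
    x * Real.exp (-Real.exp (C * (k : ℝ) ^ 2 * L))
      ≤ ({n : ℕ | (Nat.nth Nat.Prime (n + k) : ℝ) ≤ x ∧ ∀ i < k, L * Real.log x
          ≤ (Nat.nth Nat.Prime (n + i + 1) : ℝ) - Nat.nth Nat.Prime (n + i) - 1}.ncard : ℝ) :=
  Pool.Agent.Helper88.AC.mAC

end Pool.Agent.Helper88.Old.AbundantChains
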