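import Mathlib
import Pool.Agent.Helper88.CR.Main

/-!
# Chains of consecutive prime gaps, all of record size

Problem MP_69be96_nt, for the actual primes and without any hypothesis.  Write `p n` for the
`n`-th prime (`Nat.nth Nat.Prime n`, counted from `0`) and `g n = p (n + 1) - p n - 1` for the
number of composites between `p n` and the next prime.

There is `c > 0` such that for every `k ≥ 1` and all `x ≥ X(k)` some `n` with `p (n + k) ≤ x`
satisfies `g (n + i) ≥ (c / k^2) (log x) (log_2 x)^2 (log_4 x) / (log_3 x)^2` for `i = 0, .., k-1`,
where `log_j` is the `j`-fold iterated logarithm.

The window is chosen as in `ShortIntervalRecord` (Rankin's classes modulo the primes up to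
`w = log x / (C log log x)`, one of them left out, leave `c' log x` points), but now the points of
about `k^2` blocks are left alone, and a sieve weight kills the primes at all the other points.
New: the primes at the points of the blocks are not lost under the weight.  This needs (1) that for
every modulus `m` the primes in the classes modulo `m p` are distributed like the primes in the
class modulo `m`, on average over the primes `p` (bilinear forms and the large sieve), and (2) a
lower bound, of the expected order, for the number of primes `≤ x` in every residue class modulo
the product `q` of the primes up to `w` except one, when `x ≥ q^(C log log q)`; this is proved with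
Dirichlet series over the integers without small prime factors, without zero-free regions in the
critical strip.
-/

namespace Pool.Agent.Helper88.Old.ChainsOfRecordGaps

theorem result : ∃ c : ℝ, 0 < c ∧ ∀ k : ℕ, 1 ≤ k → ∃ X : ℝ, ∀ x : ℝ, X ≤ x → ∃ n : ℕ,
    (Nat.nth Nat.Prime (n + k) : ℝ) ≤ x ∧ ∀ i < k,
      c / k ^ 2 * (Real.log x * Real.log (Real.log x) ^ 2 *
          Real.log (Real.log (Real.log (Real.log x))) / Real.log (Real.log (Real.log x)) ^ 2)
        ≤ (Nat.nth Nat.Prime (n + i + 1) : ℝ) - Nat.nth Nat.Prime (n + i) - 1 :=
  Pool.Agent.Helper88.CR.mCR

end Pool.Agent.Helper88.Old.ChainsOfRecordGaps
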