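import Mathlib
import Pool.Agent.Helper88.GapMain
import Pool.Agent.Helper88.GapDiv

/-!
# Cramér's inequality in random models with dependence: an exact integral test

Problem MP_69be96_nt.  Let `R n` be the event that the integer `n` is chosen, adapted to a
filtration `ℱ`.  No independence is assumed: we only ask that the conditional probability of
choosing `n + 1`, given the past, be `w (n + 1) / log (n + 1)` up to a relative error
`O (1 / log (n + 1))`, where the `O`-constant may depend on the sample point and where `w` is a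
fixed nonnegative weight whose sums over intervals equal the length up to a bounded error
(`w = 1` for Cramér's model; `w n = Q / φ(Q)` for `n` coprime to `Q` and `0` otherwise for its
refinement by a fixed modulus).

For every threshold function `t ≥ 0`, the gap after a chosen `n` (the number of integers strictly
between `n` and the next chosen integer) is at least `t n` for infinitely many chosen `n`, almost
surely, if `∑ w n * exp (-t n / log n) / log n` diverges, and for only finitely many chosen `n`,
almost surely, if it converges.  For `t n = (log n)^2` the series diverges, so in all these models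
the inequality of Cramér's conjecture almost surely fails infinitely often.
-/

open MeasureTheory ProbabilityTheory Filter

namespace Pool.Agent.Helper88.Old.DependentModels

theorem result {Ω : Type*} [mΩ : MeasurableSpace Ω] (μ : Measure Ω) [IsProbabilityMeasure μ]
    (ℱ : Filtration ℕ mΩ) (R : ℕ → Set Ω) (hR : ∀ n, MeasurableSet[ℱ n] (R n))
    (w : ℕ → ℝ) (hw : ∀ n, 0 ≤ w n) (W : ℝ)
    (hW : ∀ n k : ℕ, |∑ i ∈ Finset.range k, w (n + i + 1) - k| ≤ W)
    (hcond : ∀ᵐ ω ∂μ, ∃ K : ℝ, ∀ᶠ n : ℕ in atTop,
      |(μ[(R (n + 1)).indicator (fun _ => (1 : ℝ)) | ℱ n]) ω - w (n + 1) / Real.log (n + 1 : ℕ)| ≤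
        K * w (n + 1) / Real.log (n + 1 : ℕ) ^ 2) :
    (∀ t : ℕ → ℝ, (∀ n, 0 ≤ t n) →
      ((Summable fun n : ℕ => w n * Real.exp (-t n / Real.log n) / Real.log n) →
        ∀ᵐ ω ∂μ, {n : ℕ | ω ∈ R n ∧
          ∀ m : ℕ, n < m → (m : ℝ) - n - 1 < t n → ω ∉ R m}.Finite) ∧
      ((¬ Summable fun n : ℕ => w n * Real.exp (-t n / Real.log n) / Real.log n) →
        ∀ᵐ ω ∂μ, {n : ℕ | ω ∈ R n ∧
          ∀ m : ℕ, n < m → (m : ℝ) - n - 1 < t n → ω ∉ R m}.Infinite)) ∧
    (∀ᵐ ω ∂μ, {n : ℕ | ω ∈ R n ∧
      ∀ m : ℕ, n < m → (m : ℝ) - n - 1 < Real.log n ^ 2 → ω ∉ R m}.Infinite) := by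
  have hmain := fun (t : ℕ → ℝ) (ht : ∀ n, 0 ≤ t n) =>
    Pool.Agent.Helper88.GapCore.main (μ := μ) hR hw hW hcond ht
  exact ⟨hmain, (hmain (fun n => Real.log n ^ 2) (fun n => sq_nonneg _)).2
    (Pool.Agent.Helper88.GapCore.not_summable_w hw hW)⟩

end Pool.Agent.Helper88.Old.DependentModels
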