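import Mathlib
import Pool.Agent.Helper88.CntResult

/-!
# How often Cramér's inequality fails: a strong law in random models with dependence

Problem MP_69be96_nt.  Let `R n` be the event that the integer `n` is chosen, adapted to a
filtration `ℱ`; no independence is assumed.  Let `w ≥ 0` be a weight with
`∑_{i<k} w (n + i + 1) = k + O(1)` and `∑_{i<k} w (n + i + 1)^2 = v k + O(1)` (for Cramér's model
`w = 1`, `v = 1`; for the refinement by a modulus `Q`, `w n = Q / φ(Q)` for `n` coprime to `Q` and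
`0` otherwise, `v = Q / φ(Q)`), and let `κ` be a real-valued function of the sample point such that
almost surely the conditional probability of choosing `n` given the past is
`w n (1 / log n + κ / (log n)^2) + o(w n / (log n)^2)`.

For every `t ≥ 0` with `t n = O((log n)^2)` and divergent `∑ w n exp (-t n / log n) / log n`,
almost surely the number of chosen `n ≤ x` whose gap (number of integers strictly between `n` and
the next chosen one) is at least `t n` is asymptotic to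
`∑_{n ≤ x} w n exp (-t n / log n - (κ + v / 2) t n / (log n)^2) / log n`.

In particular the number of chosen `n ≤ x` violating Cramér's inequality `g < (log n)^2` is
almost surely asymptotic to `exp (-κ - v / 2) log log x`.
-/

open MeasureTheory ProbabilityTheory Filter
open scoped Topology

namespace Pool.Agent.Helper88.Old.ExceptionCount

theorem result {Ω : Type*} [mΩ : MeasurableSpace Ω] (μ : Measure Ω) [IsProbabilityMeasure μ]
    (ℱ : Filtration ℕ mΩ) (R : ℕ → Set Ω) (hR : ∀ n, MeasurableSet[ℱ n] (R n))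
    (w : ℕ → ℝ) (hw : ∀ n, 0 ≤ w n) (W v : ℝ)
    (hW : ∀ n k : ℕ, |∑ i ∈ Finset.range k, w (n + i + 1) - k| ≤ W)
    (hv : ∀ n k : ℕ, |∑ i ∈ Finset.range k, w (n + i + 1) ^ 2 - v * k| ≤ W)
    (κ : Ω → ℝ)
    (hcond : ∀ᵐ ω ∂μ, ∀ ε : ℝ, 0 < ε → ∀ᶠ n : ℕ in atTop,
      |(μ[(R (n + 1)).indicator (fun _ => (1 : ℝ)) | ℱ n]) ω -
        w (n + 1) * (1 / Real.log (n + 1 : ℕ) + κ ω / Real.log (n + 1 : ℕ) ^ 2)| ≤
        ε * w (n + 1) / Real.log (n + 1 : ℕ) ^ 2) :
    (∀ t : ℕ → ℝ, (∀ n, 0 ≤ t n) →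
      (∃ C : ℝ, ∀ᶠ n : ℕ in atTop, t n ≤ C * Real.log n ^ 2) →
      (¬ Summable fun n : ℕ => w n * Real.exp (-t n / Real.log n) / Real.log n) →
      ∀ᵐ ω ∂μ, Tendsto (fun x : ℕ =>
        ({n : ℕ | n ≤ x ∧ ω ∈ R n ∧
          ∀ m : ℕ, n < m → (m : ℝ) - n - 1 < t n → ω ∉ R m}.ncard : ℝ) /
        ∑ n ∈ Finset.range (x + 1), w n * Real.exp (-t n / Real.log n -
          (κ ω + v / 2) * t n / Real.log n ^ 2) / Real.log n) atTop (𝓝 1)) ∧
    (∀ᵐ ω ∂μ, Tendsto (fun x : ℕ =>
      ({n : ℕ | n ≤ x ∧ ω ∈ R n ∧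
        ∀ m : ℕ, n < m → (m : ℝ) - n - 1 < Real.log n ^ 2 → ω ∉ R m}.ncard : ℝ) /
      Real.log (Real.log x)) atTop (𝓝 (Real.exp (-κ ω - v / 2)))) :=
  ⟨fun _ ht ⟨_, hC⟩ hdiv =>
    Pool.Agent.Helper88.CN.count_law (μ := μ) hR hw hW hv hcond ht hC hdiv,
    Pool.Agent.Helper88.CN.count_log_sq (μ := μ) hR hw hW hv hcond⟩

end Pool.Agent.Helper88.Old.ExceptionCount
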