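import Mathlib
import Pool.Agent.Helper88.ErResult

/-!
# A functional law for random models of the primes at Cramér's scale

Problem MP_69be96_nt.  Let `R n` be the event that the integer `n` is chosen, adapted to a
filtration `ℱ`; no independence is assumed.  We ask that the conditional probability of choosing
`n + 1` given the past tends to `0`, and that its sum over the `⌊t (log x)^2⌋` steps after `x` is
`(t + o(1)) log x`, almost surely (as in Cramér's model, its refinements by a fixed modulus, and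
models with memory).

For an integer `x` let `F_x(t)` be the number of chosen integers in `(x, x + t (log x)^2]` divided
by `log x`.  Almost surely, for every `T > 0`, the limit points of the functions `F_x` in the
uniform norm on `[0, T]` as `x → ∞` are exactly the functions `t ↦ ∫_0^t φ` with `φ ≥ 0`
measurable and `∫_0^T (φ log φ - φ + 1) ≤ 1`, and `F_x` approaches this set as `x → ∞`.
-/

open MeasureTheory ProbabilityTheory Filter
open scoped Topology

namespace Pool.Agent.Helper88.Old.FunctionalLaw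

theorem result {Ω : Type*} [mΩ : MeasurableSpace Ω] (μ : Measure Ω) [IsProbabilityMeasure μ]
    (ℱ : Filtration ℕ mΩ) (R : ℕ → Set Ω) (hR : ∀ n, MeasurableSet[ℱ n] (R n))
    (hsmall : ∀ᵐ ω ∂μ, Tendsto (fun n : ℕ =>
      (μ[(R (n + 1)).indicator (fun _ => (1 : ℝ)) | ℱ n]) ω) atTop (𝓝 0))
    (hdens : ∀ᵐ ω ∂μ, ∀ t : ℝ, 0 < t → Tendsto (fun x : ℕ =>
      (∑ k ∈ Finset.range ⌊t * Real.log x ^ 2⌋₊,
        (μ[(R (x + k + 1)).indicator (fun _ => (1 : ℝ)) | ℱ (x + k)]) ω) / Real.log x)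
        atTop (𝓝 t)) :
    ∀ᵐ ω ∂μ, ∀ T : ℝ, 0 < T → ∀ ε : ℝ, 0 < ε →
      (∀ φ : ℝ → ℝ,
        (Measurable φ ∧ (∀ s, 0 ≤ φ s) ∧
          IntegrableOn (fun s => φ s * Real.log (φ s) - φ s + 1) (Set.Ioc 0 T) ∧
          ∫ s in Set.Ioc 0 T, (φ s * Real.log (φ s) - φ s + 1) ≤ 1) →
        {x : ℕ | ∀ t ∈ Set.Icc 0 T,
          |({m : ℕ | x < m ∧ (m : ℝ) ≤ x + t * Real.log x ^ 2 ∧ ω ∈ R m}.ncard : ℝ) /
            Real.log x - ∫ s in (0 : ℝ)..t, φ s| ≤ ε}.Infinite) ∧
      {x : ℕ | ¬ ∃ φ : ℝ → ℝ,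
        (Measurable φ ∧ (∀ s, 0 ≤ φ s) ∧
          IntegrableOn (fun s => φ s * Real.log (φ s) - φ s + 1) (Set.Ioc 0 T) ∧
          ∫ s in Set.Ioc 0 T, (φ s * Real.log (φ s) - φ s + 1) ≤ 1) ∧
        ∀ t ∈ Set.Icc 0 T,
          |({m : ℕ | x < m ∧ (m : ℝ) ≤ x + t * Real.log x ^ 2 ∧ ω ∈ R m}.ncard : ℝ) /
            Real.log x - ∫ s in (0 : ℝ)..t, φ s| ≤ ε}.Finite :=
  Pool.Agent.Helper88.ER.er_law (μ := μ) hR hsmall hdens

end Pool.Agent.Helper88.Old.FunctionalLaw
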