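import Mathlib
import Pool.Agent.Helper88.Hawkins3
import Pool.Agent.Helper88.GapDiv

/-!
# Cramér's inequality for the Hawkins random sieve: an exact integral test

Problem MP_69be96_nt.  The Hawkins random sieve is the random analogue of the sieve of
Eratosthenes: go through the integers `2, 3, 4, …`; whenever an integer `k` is reached that has
not been deleted, it is chosen, and every larger integer `n` is deleted with probability `1 / k`,
all deletions being independent.  Here `D k n` is the deletion event, and `R n` the event that `n`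
is chosen; more generally the sieve is started from a set `T` of integers with bounded discrepancy
(`T` = all integers is Hawkins' sieve; `T` = the integers coprime to a fixed `Q` is allowed).

For every threshold function `t ≥ 0`, the gap after a chosen `n` is at least `t n` for infinitely
many chosen `n`, almost surely, if `∑_{n ∈ T} exp (-t n / log n) / log n` diverges, and for only
finitely many, almost surely, if it converges.  For `t n = (log n)^2` the series diverges, so the
inequality of Cramér's conjecture almost surely fails infinitely often for the sieve.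
-/

open MeasureTheory ProbabilityTheory Filter

namespace Pool.Agent.Helper88.Old.HawkinsSieve

theorem result {Ω : Type*} [MeasurableSpace Ω] (μ : Measure Ω) [IsProbabilityMeasure μ]
    (D : ℕ → ℕ → Set Ω) (hD : ∀ k n, MeasurableSet (D k n))
    (hind : iIndepSet (fun p : ℕ × ℕ => D p.1 p.2) μ)
    (hprob : ∀ k n, 2 ≤ k → k < n → μ.real (D k n) = 1 / k)
    (T : Set ℕ) (θ W : ℝ) (hθ : 0 < θ)
    (hT : ∀ n k : ℕ, |((T ∩ Set.Ioc n (n + k)).ncard : ℝ) - θ * k| ≤ W)
    (R : ℕ → Set Ω)
    (hR : ∀ n, R n = {ω | 2 ≤ n ∧ n ∈ T ∧ ∀ k, k < n → ω ∈ R k → ω ∉ D k n}) :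
    (∀ t : ℕ → ℝ, (∀ n, 0 ≤ t n) →
      ((Summable (T.indicator fun n : ℕ => Real.exp (-t n / Real.log n) / Real.log n)) →
        ∀ᵐ ω ∂μ, {n : ℕ | ω ∈ R n ∧
          ∀ m : ℕ, n < m → (m : ℝ) - n - 1 < t n → ω ∉ R m}.Finite) ∧
      ((¬ Summable (T.indicator fun n : ℕ => Real.exp (-t n / Real.log n) / Real.log n)) →
        ∀ᵐ ω ∂μ, {n : ℕ | ω ∈ R n ∧
          ∀ m : ℕ, n < m → (m : ℝ) - n - 1 < t n → ω ∉ R m}.Infinite)) ∧
    (∀ᵐ ω ∂μ, {n : ℕ | ω ∈ R n ∧
      ∀ m : ℕ, n < m → (m : ℝ) - n - 1 < Real.log n ^ 2 → ω ∉ R m}.Infinite) := by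
  have heq : ∀ t : ℕ → ℝ,
      (T.indicator fun n : ℕ => Real.exp (-t n / Real.log n) / Real.log n) =
        fun n : ℕ => Pool.Agent.Helper88.Hawkins.tt T n * Real.exp (-t n / Real.log n) /
          Real.log n := by
    intro t
    ext n
    unfold Pool.Agent.Helper88.Hawkins.tt
    by_cases h : n ∈ T
    · rw [Set.indicator_of_mem h, if_pos h, one_mul]
    · rw [Set.indicator_of_notMem h, if_neg h, zero_mul, zero_div]
  have hmain : ∀ t : ℕ → ℝ, (∀ n, 0 ≤ t n) →
      ((Summable (T.indicator fun n : ℕ => Real.exp (-t n / Real.log n) / Real.log n)) →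
        ∀ᵐ ω ∂μ, {n : ℕ | ω ∈ R n ∧
          ∀ m : ℕ, n < m → (m : ℝ) - n - 1 < t n → ω ∉ R m}.Finite) ∧
      ((¬ Summable (T.indicator fun n : ℕ => Real.exp (-t n / Real.log n) / Real.log n)) →
        ∀ᵐ ω ∂μ, {n : ℕ | ω ∈ R n ∧
          ∀ m : ℕ, n < m → (m : ℝ) - n - 1 < t n → ω ∉ R m}.Infinite) := by
    intro t ht
    rw [heq t]
    exact Pool.Agent.Helper88.Hawkins.main hD hind hprob hR hθ hT ht
  refine ⟨hmain, (hmain (fun n => Real.log n ^ 2) (fun n => sq_nonneg _)).2 ?_⟩
  rw [heq]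
  intro hcon
  have hw0 : ∀ n, 0 ≤ Pool.Agent.Helper88.Hawkins.tt T n / θ := fun n =>
    div_nonneg (Pool.Agent.Helper88.Hawkins.tt_nonneg T n) hθ.le
  have hwW : ∀ n k : ℕ, |∑ i ∈ Finset.range k,
      Pool.Agent.Helper88.Hawkins.tt T (n + i + 1) / θ - k| ≤ W / θ := by
    intro n k
    have h1 : ∑ i ∈ Finset.range k, Pool.Agent.Helper88.Hawkins.tt T (n + i + 1) / θ - k =
        (((T ∩ Set.Ioc n (n + k)).ncard : ℝ) - θ * k) / θ := by
      rw [← Pool.Agent.Helper88.Hawkins.sum_tt, ← Finset.sum_div]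
      field_simp
    rw [h1, abs_div, abs_of_pos hθ]
    gcongr
    exact hT n k
  apply Pool.Agent.Helper88.GapCore.not_summable_w (w := fun n =>
    Pool.Agent.Helper88.Hawkins.tt T n / θ) hw0 hwW
  refine (hcon.mul_left (1 / θ)).congr fun n => ?_
  ring

end Pool.Agent.Helper88.Old.HawkinsSieve
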