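import Mathlib
import Pool.Agent.Helper88.GM.MainUF
import Pool.Agent.Helper11.GM.MO

/-!
# The frequency of large gaps between consecutive primes

Problem MP_69be96_nt, for the actual primes and without any hypothesis.  Write `p n` for the
`n`-th prime (`Nat.nth Nat.Prime n`, counted from `0`) and `g n = p (n + 1) - p n - 1` for the
number of composites between `p n` and the next prime.

There are `c > 0`, `C` and `X` such that for all real `x ≥ X` and all `L` with
`log log log x ≤ L ≤ c log log x`, at least `x exp (-exp (C L))` of the `n` with `p n ≤ x` satisfy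
`g n ≥ L log x`.

For almost all `m ≤ x` one of the first `exp (exp (C L))` translates of the window
`(m, m + L log x]` contains no prime: the sieve weights which avoid the primes in the single windows
are almost uncorrelated for different windows.
-/

namespace Pool.Agent.Helper88.Old.LargeGapAbundance

theorem result : ∃ c C : ℝ, 0 < c ∧ ∃ X : ℝ, ∀ x : ℝ, X ≤ x → ∀ L : ℝ,
    Real.log (Real.log (Real.log x)) ≤ L → L ≤ c * Real.log (Real.log x) →
    x * Real.exp (-Real.exp (C * L))
      ≤ ({n : ℕ | (Nat.nth Nat.Prime n : ℝ) ≤ x ∧
          L * Real.log x ≤ (Nat.nth Nat.Prime (n + 1) : ℝ) - Nat.nth Nat.Prime n - 1}.ncard : ℝ) :=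
  Pool.Agent.Helper88.GM.mainUFA Pool.Agent.Helper11.GM.mo

end Pool.Agent.Helper88.Old.LargeGapAbundance
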