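import Mathlib
import Pool.Agent.Helper88.LG.Main

/-!
# How often the gap after a prime is `λ` times the average

Problem MP_69be96_nt, for the actual primes and without any hypothesis.  Write `p n` for the
`n`-th prime (`Nat.nth Nat.Prime n`, counted from `0`) and `g n = p (n + 1) - p n - 1` for the
number of composites between `p n` and the next prime.

There are `c > 0` and `X` such that for all real `x ≥ X` and all `λ ≥ 16` with
`λ (log λ)^2 ≤ c (log log λ) (log log x)`, at least
`x exp (-(log x)^(1 - c (log log λ) / (λ log λ)))` of the indices `n` with `p n ≤ x` satisfy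
`g n ≥ λ log x`.  In particular, for every fixed `λ` there is `δ > 0` such that the number of
primes up to `x` followed by a gap of length at least `λ log x` is at least
`x exp (-(log x)^(1 - δ))` for all large `x`; and the allowed `λ` go up to Rankin's
`c' (log log x) (log log log log x) / (log log log x)^2`.
-/

namespace Pool.Agent.Helper88.Old.LargeGapFrequency

theorem result : ∃ c : ℝ, 0 < c ∧ ∃ X : ℝ, ∀ x : ℝ, X ≤ x → ∀ lam : ℝ, 16 ≤ lam →
    lam * Real.log lam ^ 2 ≤ c * Real.log (Real.log lam) * Real.log (Real.log x) →
    x * Real.exp (-(Real.log x) ^ (1 - c * Real.log (Real.log lam) / (lam * Real.log lam)))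
      ≤ ({n : ℕ | (Nat.nth Nat.Prime n : ℝ) ≤ x ∧
          lam * Real.log x ≤
            (Nat.nth Nat.Prime (n + 1) : ℝ) - Nat.nth Nat.Prime n - 1}.ncard : ℝ) :=
  Pool.Agent.Helper88.LG.main

end Pool.Agent.Helper88.Old.LargeGapFrequency
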