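import Mathlib
import Pool.Agent.Helper88.RR.Main

/-!
# Large gaps between consecutive primes

Problem MP_69be96_nt, for the actual primes and without any hypothesis.  Write `p n` for the
`n`-th prime (`Nat.nth Nat.Prime n`, counted from `0`) and `g n = p (n + 1) - p n - 1` for the
number of composites between `p n` and the next prime.

There are `c > 0` and `X` such that for every real `x ≥ X` some `n` with `p n ≤ x` satisfies
`g n ≥ c (log x) (log_2 x)^2 (log_4 x) / (log_3 x)^2`, where `log_j` is the `j`-fold iterated
logarithm.

The interval is chosen in two steps.  Rankin's choice of one residue class for each prime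
`p ≤ (log x) / 20` leaves at most `c' log x` of its points; then a sieve weight, the part of small
total degree of the product over these points of `1 - S`, with `S` a divisor sum which is `1` at
the primes and whose mass is spread evenly over many scales, shows that there is a translate in
which all remaining points are composite.
-/

namespace Pool.Agent.Helper88.Old.LargeGapRecord

theorem result : ∃ c : ℝ, 0 < c ∧ ∃ X : ℝ, ∀ x : ℝ, X ≤ x → ∃ n : ℕ,
    (Nat.nth Nat.Prime n : ℝ) ≤ x ∧
    c * (Real.log x * Real.log (Real.log x) ^ 2 *
        Real.log (Real.log (Real.log (Real.log x))) / Real.log (Real.log (Real.log x)) ^ 2)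
      ≤ (Nat.nth Nat.Prime (n + 1) : ℝ) - Nat.nth Nat.Prime n - 1 :=
  Pool.Agent.Helper88.RR.main

end Pool.Agent.Helper88.Old.LargeGapRecord
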