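import Mathlib
import Pool.Agent.Helper88.PP.Main

/-!
# A positive proportion of the prime gaps is larger than `λ` times the average

Problem MP_69be96_nt, for the actual primes and without any hypothesis.  Write `p n` for the
`n`-th prime (`Nat.nth Nat.Prime n`, counted from `0`) and `g n = p (n + 1) - p n - 1` for the
number of composites between `p n` and the next prime.

For every real `λ` there are `c > 0` and `X` such that for all real `x ≥ X`, at least
`c x / log x` of the indices `n` with `p n ≤ x` satisfy `g n ≥ λ log x`.  Since there are about
`x / log x` primes up to `x`, this is a positive proportion of the gaps; the average gap is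
`log x`.
-/

namespace Pool.Agent.Helper88.Old.PositiveProportion

theorem result : ∀ lam : ℝ, ∃ c : ℝ, 0 < c ∧ ∃ X : ℝ, ∀ x : ℝ, X ≤ x →
    c * (x / Real.log x) ≤ ({n : ℕ | (Nat.nth Nat.Prime n : ℝ) ≤ x ∧
      lam * Real.log x ≤
        (Nat.nth Nat.Prime (n + 1) : ℝ) - Nat.nth Nat.Prime n - 1}.ncard : ℝ) :=
  Pool.Agent.Helper88.PP.main

end Pool.Agent.Helper88.Old.PositiveProportion
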